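import Pool.Agent.N984.QX.Stm2

/-! QX/IFF: consequences -/

set_option autoImplicit false

namespace Pool.Agent.N1.QX

open Pool.Agent.N984.QX

theorem t_IFF (h1 : S_LOW) (h2 : S_UP0) (h3 : S_UPC) (h4 : S_LIM) : S_IFF := by
  have _ := h1
  refine ⟨h4.2.1, fun D => ?_⟩
  let g : ℕ → ℕ := fun c => (7 * c + 1).choose (c + 1) + (7 * c + 1)
  let G : ℕ := ∑ c ∈ Finset.range (D + 1), g c
  have hg : ∀ c, 0 < g c := fun c =>
    Nat.lt_of_lt_of_le (Nat.succ_pos (7 * c)) (Nat.le_add_left _ _)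
  have hG : ∀ c ≤ D, g c ≤ G := fun c hc =>
    Finset.single_le_sum (f := g) (fun _ _ => Nat.zero_le _) (Finset.mem_range.2 (by omega))
  have hG0 : 0 < G := (hg 0).trans_le (hG 0 (Nat.zero_le _))
  have hG0' : (0 : ℝ) < (G : ℝ) := Nat.cast_pos.2 hG0
  refine ⟨min (3 / 28) (1 / (G : ℝ)), lt_min (by norm_num) (by positivity), 13 * D + 12,
    fun n k hN hk hD => ?_⟩
  obtain ⟨c, rfl⟩ : ∃ c, n = 2 * k + c := ⟨n - 2 * k, by omega⟩
  have hc : c ≤ D := by omega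
  have hch : (0 : ℝ) ≤ (((2 * k + c).choose k : ℕ) : ℝ) := Nat.cast_nonneg _
  rcases Nat.eq_zero_or_pos c with h0 | hpos
  · subst h0
    rw [add_zero] at hch ⊢
    have h5 := h2 k (by omega)
    have h6 : (28 : ℝ) * (Qex (2 * k) k : ℝ) ≤ 25 * (((2 * k).choose k : ℕ) : ℝ) := by
      exact_mod_cast h5
    have h7 : min (3 / 28) (1 / (G : ℝ)) ≤ 3 / 28 := min_le_left _ _
    have h8 : (1 - 3 / 28) * (((2 * k).choose k : ℕ) : ℝ) ≤
        (1 - min (3 / 28) (1 / (G : ℝ))) * (((2 * k).choose k : ℕ) : ℝ) :=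
      mul_le_mul_of_nonneg_right (by linarith) hch
    linarith
  · have h5 := h3 c k hpos (by omega)
    refine h5.trans (mul_le_mul_of_nonneg_right ?_ hch)
    have h7 : min (3 / 28) (1 / (G : ℝ)) ≤ 1 / (G : ℝ) := min_le_right _ _
    have h8 : 1 / (G : ℝ) ≤ 1 / (g c : ℝ) :=
      one_div_le_one_div_of_le (Nat.cast_pos.2 (hg c)) (Nat.cast_le.2 (hG c hc))
    have h9 : (1 : ℝ) / (((7 * c + 1).choose (c + 1) + (7 * c + 1) : ℕ) : ℝ) = 1 / (g c : ℝ) := rfl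
    rw [h9]
    linarith

end Pool.Agent.N1.QX
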